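import Pool.Agent.W247.ET.Fin
import Pool.Agent.W19.ET.POS
import Pool.Agent.W641.ET.QUAD
import Pool.Agent.W723.ET.KINT
import Pool.Agent.W119.ET.ASM
import Pool.Agent.W930.ET.LOW
import Pool.Agent.W975.ET.KER
import Pool.Agent.W73.ET.ENE
import Pool.Agent.W654.ET.RS
import Pool.Agent.W591.ET.UPY
import Pool.Agent.W356.ET.UPX
import Pool.Agent.W762.ET.VA1
import Pool.Agent.W369.ET.VA2
import Pool.Agent.W418.ET.VA
import Pool.Agent.W451.ET.VB
import Pool.Agent.W369.ET.VC
import Pool.Agent.W253.ET.VD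
import Pool.Agent.W381.ET.MS
import Pool.Agent.W55.ET.SPA
import Pool.Agent.W962.ET.CUT

set_option autoImplicit false

/-!
# Assembly: every asymptotic basis of order two has at least eight representations infinitely often

All parts of the proof of `Main_stmt`.
-/

namespace Pool.Agent.W247.ET

theorem main : Main_stmt :=
  main_of_parts
    (Pool.Agent.W119.ET.main Pool.Agent.W19.ET.main Pool.Agent.W641.ET.main
      Pool.Agent.W723.ET.main)
    Pool.Agent.W930.ET.LOW.main
    Pool.Agent.W73.ET.ENE.main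
    (Pool.Agent.W356.ET.UPX.main
      (Pool.Agent.W654.ET.RS.main Pool.Agent.W975.ET.main) Pool.Agent.W591.ET.UPY.main)
    (Pool.Agent.W418.ET.VA.main Pool.Agent.W762.ET.VA1.main Pool.Agent.W369.ET.main)
    Pool.Agent.W451.ET.VB.main
    Pool.Agent.W369.ET.vc_main
    Pool.Agent.W253.ET.VD.main
    Pool.Agent.W381.ET.MS.main
    (Pool.Agent.W962.ET.main Pool.Agent.W55.ET.main)

end Pool.Agent.W247.ET
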